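import Pool.Agent.T2H15.DW.Regular

/-!
# The two schemes with nine classes on sixteen points
-/

namespace Pool.Agent.T2H15.DW

open Finset Matrix

/-- labels of the orbits, for the point `(x₁, x₂)` with `0 ≤ x₁, x₂ ≤ 3` -/
def T : Fin 4 → Fin 4 → Fin 10 :=
  ![![0, 6, 2, 6], ![4, 8, 5, 9], ![1, 7, 3, 7], ![4, 9, 5, 8]]

/-- The labelling of the orbits of `x ↦ -x` on `ZMod 4 × ZMod 4`. -/
def cl1 (x : ZMod 4 × ZMod 4) : Fin 10 := T x.1 x.2

/-- The group `ZMod 4 × ZMod 4` with `x ↦ -x`. -/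
def D1 : Dat (ZMod 4 × ZMod 4) 9 where
  τ x := -x
  τ_add x y := neg_add x y
  ττ x := neg_neg x
  cl := cl1
  rep := ![(0, 0), (2, 0), (0, 2), (2, 2), (1, 0), (1, 2), (0, 1), (2, 1), (1, 1), (1, 3)]
  cl_rep := by decide
  cl_iff := by decide +kernel
  cl_zero := by decide
  cl_neg := by decide
  b a x := a.1 * x.1 + a.2 * x.2
  b_add a x y := by
    simp only [Prod.fst_add, Prod.snd_add]
    ring
  b_symm a x := by ring
  b_τ a x := by
    simp only [Prod.fst_neg, Prod.snd_neg]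
    ring
  b_nondeg := by decide +kernel

/-- `v + 2 i` -/
def g : Fin 2 → Fin 2 → Fin 4 := ![![0, 1], ![2, 3]]

/-- The labelling of the orbits of `(i, v) ↦ (i + v, v)` on `(ZMod 2)² × (ZMod 2)²`. -/
def cl2 (x : (ZMod 2 × ZMod 2) × (ZMod 2 × ZMod 2)) : Fin 10 :=
  T (g x.1.1 x.2.1) (g x.1.2 x.2.2)

/-- twice the residue class -/
def two : ZMod 2 → ZMod 4 := ![0, 2]

theorem two_add : ∀ x y, two (x + y) = two x + two y := by decide

/-- The group `(ZMod 2)² × (ZMod 2)²` with `(i, v) ↦ (i + v, v)`. -/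
def D2 : Dat ((ZMod 2 × ZMod 2) × (ZMod 2 × ZMod 2)) 9 where
  τ x := (x.1 + x.2, x.2)
  τ_add x y := by
    ext <;> simp only [Prod.fst_add, Prod.snd_add] <;> ring
  ττ := by decide +kernel
  cl := cl2
  rep := ![((0, 0), (0, 0)), ((1, 0), (0, 0)), ((0, 1), (0, 0)), ((1, 1), (0, 0)), ((0, 0), (1, 0)),
    ((0, 1), (1, 0)), ((0, 0), (0, 1)), ((1, 0), (0, 1)), ((0, 0), (1, 1)), ((0, 1), (1, 1))]
  cl_rep := by decide
  cl_iff := by decide +kernel
  cl_zero := by decide
  cl_neg := by decide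
  b a x := two (a.1.1 * x.2.1 + a.1.2 * x.2.2 + a.2.1 * x.1.1 + a.2.2 * x.1.2 + a.2.1 * x.2.1)
  b_add a x y := by
    rw [← two_add]
    congr 1
    simp only [Prod.fst_add, Prod.snd_add]
    ring
  b_symm a x := by
    congr 1
    ring
  b_τ := by decide +kernel
  b_nondeg := by decide +kernel

theorem p_eq : D1.scheme.p = D2.scheme.p := by
  funext i j k
  revert i j k
  decide +kernel

/-- the coefficients of the idempotents as integers -/
def cZ {X : Type} [AddCommGroup X] [Fintype X] [DecidableEq X] {d : ℕ} (D : Dat X d)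
    (r i : Fin (d + 1)) : ℤ := ∑ a ∈ univ.filter (fun a => D.cl a = r), rho (D.b a (D.rep i))

theorem c_eq_cZ {X : Type} [AddCommGroup X] [Fintype X] [DecidableEq X] {d : ℕ} (D : Dat X d)
    (r i : Fin (d + 1)) : D.c r i = (cZ D r i : ℝ) / Fintype.card X := by
  unfold Dat.c Dat.S cZ
  rw [Complex.re_sum]
  push_cast
  congr 1
  exact sum_congr rfl fun a _ => psi_re _

theorem cZ_eq : ∀ r i, cZ D1 r i = cZ D2 r i := by
  decide +kernel

theorem card1 : Fintype.card (ZMod 4 × ZMod 4) = 16 := by decide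

theorem card2 : Fintype.card ((ZMod 2 × ZMod 2) × (ZMod 2 × ZMod 2)) = 16 := by decide

theorem c_eq (r i : Fin 10) : D1.c r i = D2.c r i := by
  rw [c_eq_cZ, c_eq_cZ, card1, card2, cZ_eq]

theorem matched : Matched D1.scheme D2.scheme D1.E D2.E := by
  refine ⟨D1.c, fun r => rfl, fun r => ?_⟩
  unfold Dat.E
  exact sum_congr rfl fun i _ => by rw [c_eq]

end Pool.Agent.T2H15.DW
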