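import Mathlib

/-!
# Symmetric association schemes, triple regularity, Delta-Wye parameters
-/

namespace Pool.Agent.T2H15.DW

open Finset Matrix

/-- A symmetric association scheme with `d` classes on the finite set `X`: `rel x y` is the number
`i` with `(x, y) ∈ R_i`. -/
structure SymScheme (d : ℕ) (X : Type) [Fintype X] where
  /-- `(x, y) ∈ R_i` means `rel x y = i` -/
  rel : X → X → Fin (d + 1)
  /-- the relations are nonempty -/
  nonempty_rel : ∀ i, ∃ x y, rel x y = i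
  /-- `R_0` is the diagonal -/
  rel_zero : ∀ x y, rel x y = 0 ↔ x = y
  /-- the relations are symmetric -/
  rel_symm : ∀ x y, rel x y = rel y x
  /-- the intersection numbers `p_{ij}^k` -/
  p : Fin (d + 1) → Fin (d + 1) → Fin (d + 1) → ℕ
  /-- the number of `z` with `(x, z) ∈ R_i` and `(z, y) ∈ R_j` is `p_{ij}^k` if `(x, y) ∈ R_k` -/
  card_eq : ∀ i j x y, (univ.filter (fun z => rel x z = i ∧ rel z y = j)).card = p i j (rel x y)

variable {d : ℕ} {X : Type} [Fintype X] [DecidableEq X]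

/-- The adjacency matrix `A_i`. -/
def SymScheme.A (S : SymScheme d X) (i : Fin (d + 1)) : Matrix X X ℝ :=
  Matrix.of fun x y => if S.rel x y = i then 1 else 0

/-- The Bose-Mesner algebra, the real span of the adjacency matrices. -/
def SymScheme.BM (S : SymScheme d X) : Submodule ℝ (Matrix X X ℝ) :=
  Submodule.span ℝ (Set.range S.A)

/-- The tensor `Δ(L, M, N) = ∑ L_{xz} M_{xy} N_{yz} x ⊗ y ⊗ z` (as a function of `x, y, z`). -/
def Delta (L M N : Matrix X X ℝ) : X → X → X → ℂ :=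
  fun x y z => ((L x z * M x y * N y z : ℝ) : ℂ)

/-- The tensor `Y(L, M, N) = ∑ L_{xu} M_{yu} N_{zu} x ⊗ y ⊗ z` (as a function of `x, y, z`). -/
def Wye (L M N : Matrix X X ℝ) : X → X → X → ℂ :=
  fun x y z => ((∑ u, L x u * M y u * N z u : ℝ) : ℂ)

/-- The span `Δ(𝔸)` of the tensors `Δ(L, M, N)` with `L, M, N ∈ 𝔸`. -/
def SymScheme.DeltaSpace (S : SymScheme d X) : Submodule ℂ (X → X → X → ℂ) :=
  Submodule.span ℂ {T | ∃ L ∈ S.BM, ∃ M ∈ S.BM, ∃ N ∈ S.BM, T = Delta L M N}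

/-- The span `Y(𝔸)` of the tensors `Y(L, M, N)` with `L, M, N ∈ 𝔸`. -/
def SymScheme.WyeSpace (S : SymScheme d X) : Submodule ℂ (X → X → X → ℂ) :=
  Submodule.span ℂ {T | ∃ L ∈ S.BM, ∃ M ∈ S.BM, ∃ N ∈ S.BM, T = Wye L M N}

/-- Exactly triply regular: `Y(𝔸) ⊆ Δ(𝔸)` and `Δ(𝔸) ⊆ Y(𝔸)`. -/
def SymScheme.ExactlyTriplyRegular (S : SymScheme d X) : Prop :=
  S.WyeSpace ≤ S.DeltaSpace ∧ S.DeltaSpace ≤ S.WyeSpace

/-- `E_0, …, E_d` is the family of the primitive idempotents of the Bose-Mesner algebra (in some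
order): `d + 1` nonzero mutually orthogonal idempotents with sum `1`. -/
def SymScheme.IsIdempotents (S : SymScheme d X) (E : Fin (d + 1) → Matrix X X ℝ) : Prop :=
  (∀ r, E r ∈ S.BM) ∧ (∀ r, E r ≠ 0) ∧ (∀ r s, E r * E s = if r = s then E r else 0) ∧
    ∑ r, E r = 1

/-- `q` are the Krein parameters: `E_r ∘ E_s = |X|⁻¹ ∑_t q_{rs}^t E_t`. -/
def IsKrein (E : Fin (d + 1) → Matrix X X ℝ) (q : Fin (d + 1) → Fin (d + 1) → Fin (d + 1) → ℝ) :
    Prop :=
  ∀ r s, Matrix.of (fun x y => E r x y * E s x y) =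
    ((Fintype.card X : ℝ)⁻¹) • ∑ t, q r s t • E t

/-- `σ` are the Delta-Wye parameters: `Δ(A_i, A_j, A_k) = ∑ σ^{ijk}_{rst} Y(E_r, E_s, E_t)` (sum
over the triples with `q_{rs}^t > 0`) for all `i, j, k` with `p_{ij}^k > 0`. -/
def SymScheme.IsDeltaWye (S : SymScheme d X) (E : Fin (d + 1) → Matrix X X ℝ)
    (q : Fin (d + 1) → Fin (d + 1) → Fin (d + 1) → ℝ)
    (σ : Fin (d + 1) → Fin (d + 1) → Fin (d + 1) → Fin (d + 1) → Fin (d + 1) → Fin (d + 1) → ℂ) :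
    Prop :=
  ∀ i j k, 0 < S.p i j k → Delta (S.A i) (S.A j) (S.A k) =
    ∑ w ∈ (univ : Finset (Fin (d + 1) × Fin (d + 1) × Fin (d + 1))).filter
      (fun w => 0 < q w.1 w.2.1 w.2.2), σ i j k w.1 w.2.1 w.2.2 • Wye (E w.1) (E w.2.1) (E w.2.2)

/-- The linear map `A_i ↦ A'_i` between the Bose-Mesner algebras sends `E_r` to `E'_r`. -/
def Matched {X' : Type} [Fintype X'] [DecidableEq X'] (S : SymScheme d X) (S' : SymScheme d X')
    (E : Fin (d + 1) → Matrix X X ℝ) (E' : Fin (d + 1) → Matrix X' X' ℝ) : Prop :=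
  ∃ c : Fin (d + 1) → Fin (d + 1) → ℝ,
    (∀ r, E r = ∑ i, c r i • S.A i) ∧ ∀ r, E' r = ∑ i, c r i • S'.A i

end Pool.Agent.T2H15.DW
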