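import Pool.Agent.T2H15.DW.Defs

/-!
# Schemes of an abelian group with an involution
-/

namespace Pool.Agent.T2H15.DW

open Finset Matrix

/-- The additive character `n ↦ I ^ n` of `ZMod 4`. -/
noncomputable def psi : AddChar (ZMod 4) ℂ := AddChar.zmodChar 4 Complex.I_pow_four

/-- the real part of `I ^ n` -/
def rho : ZMod 4 → ℤ := ![1, 0, -1, 0]

theorem psi_apply (n : ZMod 4) : psi n = Complex.I ^ n.val := AddChar.zmodChar_apply _ _

theorem psi_re (n : ZMod 4) : (psi n).re = rho n := by
  rw [psi_apply]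
  fin_cases n
  · change (Complex.I ^ 0).re = ((1 : ℤ) : ℝ)
    simp
  · change (Complex.I ^ 1).re = ((0 : ℤ) : ℝ)
    simp
  · change (Complex.I ^ 2).re = ((-1 : ℤ) : ℝ)
    simp
  · change (Complex.I ^ 3).re = ((0 : ℤ) : ℝ)
    rw [Complex.I_pow_three]
    simp

theorem psi_ne_one {n : ZMod 4} (hn : n ≠ 0) : psi n ≠ 1 := by
  intro h
  have h1 := congrArg Complex.re h
  rw [psi_re, Complex.one_re] at h1
  have h2 : rho n = 1 := by exact_mod_cast h1
  clear h h1
  revert n
  decide

theorem psi_conj (n : ZMod 4) : (starRingEnd ℂ) (psi n) = psi (-n) := by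
  rw [psi_apply, psi_apply, map_pow, Complex.conj_I]
  fin_cases n
  · change (-Complex.I) ^ 0 = Complex.I ^ 0
    simp
  · change (-Complex.I) ^ 1 = Complex.I ^ 3
    rw [Complex.I_pow_three]
    simp
  · change (-Complex.I) ^ 2 = Complex.I ^ 2
    simp
  · change (-Complex.I) ^ 3 = Complex.I ^ 1
    have : (-Complex.I) ^ 3 = - Complex.I ^ 3 := by ring
    rw [this, Complex.I_pow_three]
    simp

/-- An abelian group `X` with an involution `τ`, a symmetric nondegenerate bilinear map `b` with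
values in `ZMod 4` for which `τ` is self-adjoint, and a labelling `cl` of the orbits of `τ`. -/
structure Dat (X : Type) [AddCommGroup X] [Fintype X] [DecidableEq X] (d : ℕ) where
  τ : X → X
  τ_add : ∀ x y, τ (x + y) = τ x + τ y
  ττ : ∀ x, τ (τ x) = x
  cl : X → Fin (d + 1)
  rep : Fin (d + 1) → X
  cl_rep : ∀ i, cl (rep i) = i
  cl_iff : ∀ x y, cl x = cl y ↔ (y = x ∨ y = τ x)
  cl_zero : cl 0 = 0
  cl_neg : ∀ x, cl (-x) = cl x
  b : X → X → ZMod 4
  b_add : ∀ a x y, b a (x + y) = b a x + b a y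
  b_symm : ∀ a x, b a x = b x a
  b_τ : ∀ a x, b (τ a) x = b a (τ x)
  b_nondeg : ∀ a, a ≠ 0 → ∃ x, b a x ≠ 0

variable {X : Type} [AddCommGroup X] [Fintype X] [DecidableEq X] {d : ℕ}

namespace Dat

variable (D : Dat X d)

theorem τ_zero : D.τ 0 = 0 := by
  have := D.τ_add 0 0
  rw [add_zero] at this
  exact left_eq_add.mp this

theorem τ_neg (x : X) : D.τ (-x) = -D.τ x := by
  have h := D.τ_add (-x) x
  rw [neg_add_cancel, D.τ_zero] at h
  exact eq_neg_of_add_eq_zero_left h.symm

theorem τ_sub (x y : X) : D.τ (x - y) = D.τ x - D.τ y := by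
  rw [sub_eq_add_neg, D.τ_add, D.τ_neg, sub_eq_add_neg]

theorem cl_τ (x : X) : D.cl (D.τ x) = D.cl x := ((D.cl_iff x (D.τ x)).2 (Or.inr rfl)).symm

theorem cl_eq_zero (x : X) : D.cl x = 0 ↔ x = 0 := by
  rw [← D.cl_zero, eq_comm, D.cl_iff, D.τ_zero, or_self]

theorem cl_sub_comm (x y : X) : D.cl (x - y) = D.cl (y - x) := by
  rw [← D.cl_neg, neg_sub]

/-- pairs are determined by their type up to `τ` -/
theorem pair_det {a b a' b' : X} (h1 : D.cl a = D.cl a') (h2 : D.cl b = D.cl b')
    (h3 : D.cl (a + b) = D.cl (a' + b')) :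
    (a' = a ∧ b' = b) ∨ (a' = D.τ a ∧ b' = D.τ b) := by
  rcases (D.cl_iff _ _).1 h1 with ha | ha <;> rcases (D.cl_iff _ _).1 h2 with hb | hb
  · exact Or.inl ⟨ha, hb⟩
  · subst ha hb
    rcases (D.cl_iff _ _).1 h3 with h | h
    · left
      exact ⟨rfl, add_left_cancel h⟩
    · right
      rw [D.τ_add] at h
      exact ⟨add_right_cancel h, rfl⟩
  · subst ha hb
    rcases (D.cl_iff _ _).1 h3 with h | h
    · left
      exact ⟨add_right_cancel h, rfl⟩
    · right
      rw [D.τ_add] at h
      exact ⟨rfl, add_left_cancel h⟩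
  · exact Or.inr ⟨ha, hb⟩

/-- the characters -/
noncomputable def e (a x : X) : ℂ := psi (D.b a x)

theorem e_add (a x y : X) : D.e a (x + y) = D.e a x * D.e a y := by
  unfold e
  rw [D.b_add, AddChar.map_add_eq_mul]

theorem e_symm (a x : X) : D.e a x = D.e x a := by
  unfold e
  rw [D.b_symm]

theorem e_add' (a b x : X) : D.e (a + b) x = D.e a x * D.e b x := by
  rw [D.e_symm, D.e_add, D.e_symm x a, D.e_symm x b]

theorem b_zero (a : X) : D.b a 0 = 0 := by
  have := D.b_add a 0 0
  rw [add_zero] at this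
  exact left_eq_add.mp this

theorem e_zero (a : X) : D.e a 0 = 1 := by
  unfold e
  rw [D.b_zero, AddChar.map_zero_eq_one]

theorem e_zero' (x : X) : D.e 0 x = 1 := by
  rw [D.e_symm, D.e_zero]

theorem e_neg (a x : X) : D.e a (-x) * D.e a x = 1 := by
  rw [← D.e_add, neg_add_cancel, D.e_zero]

theorem e_neg' (a x : X) : D.e (-a) x = D.e a (-x) := by
  have h1 := D.e_neg a x
  have h2 : D.e (-a) x * D.e a x = 1 := by
    rw [← D.e_add', neg_add_cancel, D.e_zero']
  have h3 : D.e a x ≠ 0 := right_ne_zero_of_mul_eq_one h1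
  exact mul_right_cancel₀ h3 (h2.trans h1.symm)

theorem b_neg (a x : X) : D.b a (-x) = -D.b a x := by
  have h := D.b_add a (-x) x
  rw [neg_add_cancel, D.b_zero] at h
  exact eq_neg_of_add_eq_zero_left h.symm

theorem e_conj (a x : X) : (starRingEnd ℂ) (D.e a x) = D.e a (-x) := by
  unfold e
  rw [psi_conj, D.b_neg]

theorem e_τ (a x : X) : D.e (D.τ a) x = D.e a (D.τ x) := by
  unfold e
  rw [D.b_τ]

/-- orthogonality -/
theorem sum_e (a : X) : ∑ x, D.e a x = if a = 0 then (Fintype.card X : ℂ) else 0 := by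
  split_ifs with h
  · subst h
    simp only [D.e_zero', sum_const, card_univ, nsmul_eq_mul, mul_one]
  · obtain ⟨y, hy⟩ := D.b_nondeg a h
    have h1 : D.e a y * ∑ x, D.e a x = ∑ x, D.e a x := by
      rw [mul_sum]
      refine Fintype.sum_equiv (Equiv.addLeft y) _ _ (fun x => ?_)
      rw [Equiv.coe_addLeft, D.e_add]
    have h2 : (D.e a y - 1) * ∑ x, D.e a x = 0 := by
      rw [sub_mul, h1, one_mul, sub_self]
    rcases mul_eq_zero.1 h2 with h3 | h3
    · exact absurd (sub_eq_zero.1 h3) (psi_ne_one hy)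
    · exact h3

theorem sum_e' (x : X) : ∑ a, D.e a x = if x = 0 then (Fintype.card X : ℂ) else 0 := by
  rw [← D.sum_e x]
  exact sum_congr rfl fun a _ => D.e_symm a x

/-! ### the scheme -/

/-- The association scheme: `(x, y) ∈ R_i` if `x - y` is in the orbit number `i`. -/
def scheme : SymScheme d X where
  rel x y := D.cl (x - y)
  nonempty_rel i := ⟨D.rep i, 0, by rw [sub_zero, D.cl_rep]⟩
  rel_zero x y := by rw [D.cl_eq_zero, sub_eq_zero]
  rel_symm x y := D.cl_sub_comm x y
  p i j k := (univ.filter (fun z => D.cl (D.rep k - z) = i ∧ D.cl z = j)).card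
  card_eq i j x y := by
    rcases (D.cl_iff _ _).1 (D.cl_rep (D.cl (x - y))).symm with h | h
    · rw [h]
      refine card_bij (fun z _ => z - y) ?_ ?_ ?_
      · intro z hz
        simp only [mem_filter, mem_univ, true_and] at hz ⊢
        refine ⟨?_, hz.2⟩
        rw [sub_sub_sub_cancel_right]
        exact hz.1
      · intro z _ z' _ hzz
        exact sub_left_injective hzz
      · intro z hz
        simp only [mem_filter, mem_univ, true_and] at hz ⊢
        refine ⟨z + y, ⟨?_, ?_⟩, add_sub_cancel_right z y⟩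
        · rw [← hz.1]
          congr 1
          abel
        · rw [add_sub_cancel_right]
          exact hz.2
    · rw [h]
      refine card_bij (fun z _ => D.τ (z - y)) ?_ ?_ ?_
      · intro z hz
        simp only [mem_filter, mem_univ, true_and] at hz ⊢
        refine ⟨?_, ?_⟩
        · rw [← D.τ_sub, D.cl_τ, sub_sub_sub_cancel_right]
          exact hz.1
        · rw [D.cl_τ]
          exact hz.2
      · intro z _ z' _ hzz
        have := congrArg D.τ hzz
        rw [D.ττ, D.ττ] at this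
        exact sub_left_injective this
      · intro z hz
        simp only [mem_filter, mem_univ, true_and] at hz ⊢
        refine ⟨D.τ z + y, ⟨?_, ?_⟩, ?_⟩
        · rw [← hz.1, ← D.cl_τ]
          congr 1
          rw [show x - (D.τ z + y) = (x - y) - D.τ z by abel, D.τ_sub, D.ττ]
        · rw [add_sub_cancel_right, D.cl_τ]
          exact hz.2
        · rw [add_sub_cancel_right, D.ττ]

theorem rel_def (x y : X) : D.scheme.rel x y = D.cl (x - y) := rfl

theorem A_apply (i : Fin (d + 1)) (x y : X) :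
    D.scheme.A i x y = if D.cl (x - y) = i then 1 else 0 := rfl

/-! ### the idempotents -/

/-- the sum of the characters in an orbit -/
noncomputable def S (r : Fin (d + 1)) (g : X) : ℂ := ∑ a ∈ univ.filter (fun a => D.cl a = r), D.e a g

theorem S_τ (r : Fin (d + 1)) (g : X) : D.S r (D.τ g) = D.S r g := by
  unfold S
  refine sum_bij (fun a _ => D.τ a) ?_ ?_ ?_ ?_
  · intro a ha
    simp only [mem_filter, mem_univ, true_and] at ha ⊢
    rw [D.cl_τ, ha]
  · intro a _ a' _ h
    have := congrArg D.τ h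
    rwa [D.ττ, D.ττ] at this
  · intro a ha
    simp only [mem_filter, mem_univ, true_and] at ha ⊢
    exact ⟨D.τ a, by rw [D.cl_τ, ha], D.ττ a⟩
  · intro a _
    rw [D.e_τ]

theorem S_neg (r : Fin (d + 1)) (g : X) : D.S r (-g) = D.S r g := by
  unfold S
  refine sum_bij (fun a _ => -a) ?_ ?_ ?_ ?_
  · intro a ha
    simp only [mem_filter, mem_univ, true_and] at ha ⊢
    rw [D.cl_neg, ha]
  · intro a _ a' _ h
    exact neg_injective h
  · intro a ha
    simp only [mem_filter, mem_univ, true_and] at ha ⊢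
    exact ⟨-a, by rw [D.cl_neg, ha], neg_neg a⟩
  · intro a _
    rw [D.e_neg']

theorem S_real (r : Fin (d + 1)) (g : X) : ((D.S r g).re : ℂ) = D.S r g := by
  rw [← Complex.conj_eq_iff_re]
  conv_rhs => rw [← D.S_neg]
  unfold S
  rw [map_sum]
  exact sum_congr rfl fun a _ => D.e_conj a g

theorem S_cl (r : Fin (d + 1)) {g h : X} (hgh : D.cl g = D.cl h) : D.S r g = D.S r h := by
  rcases (D.cl_iff _ _).1 hgh with h1 | h1
  · rw [h1]
  · rw [h1, D.S_τ]

/-- the coefficients of the idempotents -/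
noncomputable def c (r i : Fin (d + 1)) : ℝ := (D.S r (D.rep i)).re / Fintype.card X

/-- the idempotents -/
noncomputable def E (r : Fin (d + 1)) : Matrix X X ℝ := ∑ i, D.c r i • D.scheme.A i

theorem E_apply (r : Fin (d + 1)) (x y : X) :
    D.E r x y = (D.S r (x - y)).re / Fintype.card X := by
  unfold E
  rw [Matrix.sum_apply]
  simp only [Matrix.smul_apply, D.A_apply, smul_eq_mul, mul_ite, mul_one, mul_zero]
  rw [sum_ite_eq univ (D.cl (x - y)), if_pos (mem_univ _)]
  unfold c
  rw [D.S_cl r (D.cl_rep (D.cl (x - y)))]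

theorem E_cast (r : Fin (d + 1)) (x y : X) :
    ((D.E r x y : ℝ) : ℂ) = D.S r (x - y) / Fintype.card X := by
  rw [D.E_apply, Complex.ofReal_div, D.S_real, Complex.ofReal_natCast]

end Dat

end Pool.Agent.T2H15.DW
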