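import Pool.Agent.T2H15.DW.Group

/-!
# Idempotents, Krein parameters, the tensors `Y(E_r, E_s, E_t)`
-/

namespace Pool.Agent.T2H15.DW

open Finset Matrix

variable {X : Type} [AddCommGroup X] [Fintype X] [DecidableEq X] {d : ℕ}

namespace Dat

variable (D : Dat X d)

omit [DecidableEq X] in
theorem card_ne : (Fintype.card X : ℂ) ≠ 0 := by
  have : 0 < Fintype.card X := Fintype.card_pos_iff.2 ⟨(0 : X)⟩
  exact_mod_cast this.ne'

theorem e_sub (a x y : X) : D.e a (x - y) = D.e a x * D.e a (-y) := by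
  rw [sub_eq_add_neg, D.e_add]

/-- a sum over the group written as a sum over the orbits -/
theorem sum_cl (f : X → ℂ) : ∑ r, ∑ a ∈ univ.filter (fun a => D.cl a = r), f a = ∑ a, f a :=
  sum_fiberwise univ D.cl f

theorem sum_S (g : X) : ∑ r, D.S r g = if g = 0 then (Fintype.card X : ℂ) else 0 := by
  unfold S
  rw [D.sum_cl (fun a => D.e a g), D.sum_e']

theorem S_zero (r : Fin (d + 1)) : D.S r 0 = ((univ.filter (fun a => D.cl a = r)).card : ℂ) := by
  unfold S
  simp only [D.e_zero, sum_const, nsmul_eq_mul, mul_one]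

/-- convolution of characters -/
theorem conv_e (a b x y : X) : ∑ z, D.e a (x - z) * D.e b (z - y) =
    if a = b then (Fintype.card X : ℂ) * D.e a (x - y) else 0 := by
  have h1 : ∀ z, D.e a (x - z) * D.e b (z - y) = D.e a x * D.e b (-y) * D.e (b - a) z := by
    intro z
    rw [D.e_sub, D.e_sub, sub_eq_add_neg b a, D.e_add', D.e_neg' a z]
    ring
  simp only [h1]
  rw [← mul_sum, D.sum_e]
  by_cases h : a = b
  · subst h
    rw [sub_self, if_pos rfl, if_pos rfl, D.e_sub]
    ring
  · rw [if_neg h, if_neg (by rw [sub_eq_zero]; exact fun h' => h h'.symm), mul_zero]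

theorem conv_S (r s : Fin (d + 1)) (x y : X) : ∑ z, D.S r (x - z) * D.S s (z - y) =
    if r = s then (Fintype.card X : ℂ) * D.S r (x - y) else 0 := by
  unfold S
  simp only [sum_mul_sum]
  rw [sum_comm]
  have h1 : ∀ a ∈ univ.filter (fun a => D.cl a = r),
      ∑ z, ∑ b ∈ univ.filter (fun b => D.cl b = s), D.e a (x - z) * D.e b (z - y) =
      if r = s then (Fintype.card X : ℂ) * D.e a (x - y) else 0 := by
    intro a ha
    rw [sum_comm]
    simp only [D.conv_e]
    rw [sum_ite_eq]
    simp only [mem_filter, mem_univ, true_and] at ha ⊢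
    rw [ha]
  rw [sum_congr rfl h1]
  split_ifs
  · rw [mul_sum]
  · rw [sum_const_zero]

theorem E_mul (r s : Fin (d + 1)) : D.E r * D.E s = if r = s then D.E r else 0 := by
  ext x y
  apply Complex.ofReal_injective
  rw [Matrix.mul_apply, Complex.ofReal_sum]
  simp only [Complex.ofReal_mul, D.E_cast]
  have h1 : ∀ z, D.S r (x - z) / (Fintype.card X : ℂ) * (D.S s (z - y) / (Fintype.card X : ℂ)) =
      (D.S r (x - z) * D.S s (z - y)) / ((Fintype.card X : ℂ) * (Fintype.card X : ℂ)) := by
    intro z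
    rw [div_mul_div_comm]
  simp only [h1]
  rw [← sum_div, D.conv_S]
  have hc := card_ne (X := X)
  split_ifs with h
  · rw [D.E_cast, mul_div_mul_left _ _ hc]
  · simp

theorem E_sum : ∑ r, D.E r = 1 := by
  ext x y
  apply Complex.ofReal_injective
  rw [Matrix.sum_apply, Complex.ofReal_sum]
  simp only [D.E_cast]
  rw [← sum_div, D.sum_S, Matrix.one_apply]
  have hc := card_ne (X := X)
  by_cases h : x = y
  · rw [if_pos (sub_eq_zero.2 h), if_pos h, div_self hc, Complex.ofReal_one]
  · rw [if_neg (fun h' => h (sub_eq_zero.1 h')), if_neg h, zero_div, Complex.ofReal_zero]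

theorem E_ne (r : Fin (d + 1)) : D.E r ≠ 0 := by
  intro h
  have h1 : ((D.E r 0 0 : ℝ) : ℂ) = 0 := by rw [h]; simp
  rw [D.E_cast, sub_self, D.S_zero] at h1
  have hc := card_ne (X := X)
  rcases div_eq_zero_iff.1 h1 with h2 | h2
  · have h3 : (univ.filter (fun a => D.cl a = r)).card = 0 := by exact_mod_cast h2
    rw [card_eq_zero] at h3
    have h4 : D.rep r ∈ univ.filter (fun a => D.cl a = r) := by
      rw [mem_filter]
      exact ⟨mem_univ _, D.cl_rep r⟩
    rw [h3] at h4
    exact absurd h4 (notMem_empty _)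
  · exact hc h2

theorem E_mem (r : Fin (d + 1)) : D.E r ∈ D.scheme.BM :=
  Submodule.sum_mem _ fun i _ => Submodule.smul_mem _ _ (Submodule.subset_span ⟨i, rfl⟩)

theorem isIdempotents : D.scheme.IsIdempotents D.E :=
  ⟨D.E_mem, D.E_ne, D.E_mul, D.E_sum⟩

/-- product of two orbit sums -/
theorem S_mul (r s : Fin (d + 1)) (g : X) :
    D.S r g * D.S s g = ∑ t, (D.scheme.p r s t : ℂ) * D.S t g := by
  have h1 : ∀ t, (D.scheme.p r s t : ℂ) * D.S t g =
      ∑ c ∈ univ.filter (fun c => D.cl c = t), (D.scheme.p r s (D.cl c) : ℂ) * D.e c g := by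
    intro t
    unfold S
    rw [mul_sum]
    refine sum_congr rfl fun c hc => ?_
    rw [(mem_filter.1 hc).2]
  simp only [h1]
  rw [D.sum_cl (fun c => (D.scheme.p r s (D.cl c) : ℂ) * D.e c g)]
  have h2 : ∀ c, (D.scheme.p r s (D.cl c) : ℂ) =
      ∑ z, if D.cl (c - z) = r ∧ D.cl z = s then (1 : ℂ) else 0 := by
    intro c
    have h3 := D.scheme.card_eq r s c 0
    simp only [D.rel_def, sub_zero] at h3
    rw [← h3, card_filter]
    push_cast
    rfl
  simp only [h2, sum_mul]
  rw [sum_comm]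
  unfold S
  rw [sum_mul_sum, sum_comm, ← sum_filter_add_sum_filter_not univ (fun z => D.cl z = s)
    (fun y => ∑ x, (if D.cl (x - y) = r ∧ D.cl y = s then (1 : ℂ) else 0) * D.e x g)]
  have h4 : ∑ z ∈ univ.filter (fun z => ¬ D.cl z = s),
      ∑ x, (if D.cl (x - z) = r ∧ D.cl z = s then (1 : ℂ) else 0) * D.e x g = 0 := by
    refine sum_eq_zero fun z hz => sum_eq_zero fun x _ => ?_
    rw [if_neg (fun h => (mem_filter.1 hz).2 h.2), zero_mul]
  rw [h4, add_zero]
  refine sum_congr rfl fun z hz => ?_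
  rw [sum_filter]
  refine Fintype.sum_equiv (Equiv.addRight z) _ _ (fun a => ?_)
  rw [Equiv.coe_addRight, add_sub_cancel_right, D.e_add']
  simp only [(mem_filter.1 hz).2, and_true]
  split_ifs <;> simp

/-- the Krein parameters are equal to the intersection numbers -/
theorem isKrein : IsKrein D.E (fun r s t => (D.scheme.p r s t : ℝ)) := by
  intro r s
  ext x y
  apply Complex.ofReal_injective
  rw [Matrix.smul_apply, Matrix.sum_apply, Matrix.of_apply]
  simp only [Matrix.smul_apply, smul_eq_mul]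
  rw [Complex.ofReal_mul, Complex.ofReal_mul, Complex.ofReal_sum, D.E_cast, D.E_cast]
  simp only [Complex.ofReal_mul, D.E_cast, Complex.ofReal_inv, Complex.ofReal_natCast]
  have h1 : ∀ t, (D.scheme.p r s t : ℂ) * (D.S t (x - y) / (Fintype.card X : ℂ)) =
      ((D.scheme.p r s t : ℂ) * D.S t (x - y)) / (Fintype.card X : ℂ) := fun t => by ring
  simp only [h1]
  rw [← sum_div, ← D.S_mul]
  have hc := card_ne (X := X)
  field_simp

end Dat

end Pool.Agent.T2H15.DW
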