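import Pool.Agent.T2H15.DW.Tensor

/-!
# Exact triple regularity; the Delta-Wye parameters
-/

namespace Pool.Agent.T2H15.DW

open Finset Matrix

variable {X : Type} [AddCommGroup X] [Fintype X] [DecidableEq X] {d : ℕ}

namespace Dat

variable (D : Dat X d)

/-- invariance of a matrix -/
theorem bm_inv {L : Matrix X X ℝ} (hL : L ∈ D.scheme.BM) :
    (∀ w x y, L (x + w) (y + w) = L x y) ∧ ∀ x y, L (D.τ x) (D.τ y) = L x y := by
  unfold SymScheme.BM at hL
  induction hL using Submodule.span_induction with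
  | mem M hM =>
    obtain ⟨i, rfl⟩ := hM
    refine ⟨fun w x y => ?_, fun x y => ?_⟩
    · rw [D.A_apply, D.A_apply, add_sub_add_right_eq_sub]
    · rw [D.A_apply, D.A_apply, ← D.τ_sub, D.cl_τ]
  | zero => exact ⟨fun _ _ _ => rfl, fun _ _ => rfl⟩
  | add M N _ _ hM hN =>
    refine ⟨fun w x y => ?_, fun x y => ?_⟩
    · rw [Matrix.add_apply, Matrix.add_apply, hM.1, hN.1]
    · rw [Matrix.add_apply, Matrix.add_apply, hM.2, hN.2]
  | smul c M _ hM =>
    refine ⟨fun w x y => ?_, fun x y => ?_⟩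
    · rw [Matrix.smul_apply, Matrix.smul_apply, hM.1]
    · rw [Matrix.smul_apply, Matrix.smul_apply, hM.2]

theorem delta_inv {L M N : Matrix X X ℝ} (hL : L ∈ D.scheme.BM) (hM : M ∈ D.scheme.BM)
    (hN : N ∈ D.scheme.BM) : D.Inv (Delta L M N) := by
  have h1 := D.bm_inv hL
  have h2 := D.bm_inv hM
  have h3 := D.bm_inv hN
  refine ⟨fun w x y z => ?_, fun x y z => ?_⟩
  · unfold Delta
    rw [h1.1, h2.1, h3.1]
  · unfold Delta
    rw [h1.2, h2.2, h3.2]

theorem wye_inv {L M N : Matrix X X ℝ} (hL : L ∈ D.scheme.BM) (hM : M ∈ D.scheme.BM)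
    (hN : N ∈ D.scheme.BM) : D.Inv (Wye L M N) := by
  have h1 := D.bm_inv hL
  have h2 := D.bm_inv hM
  have h3 := D.bm_inv hN
  refine ⟨fun w x y z => ?_, fun x y z => ?_⟩
  · unfold Wye
    congr 1
    refine (Fintype.sum_equiv (Equiv.addRight w) _ _ (fun u => ?_)).symm
    rw [Equiv.coe_addRight, h1.1, h2.1, h3.1]
  · unfold Wye
    congr 1
    have hbij : Function.Bijective D.τ := Function.Involutive.bijective D.ττ
    refine (Fintype.sum_equiv (Equiv.ofBijective _ hbij) _ _ (fun u => ?_)).symm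
    rw [Equiv.ofBijective_apply, h1.2, h2.2, h3.2]

/-- an invariant function takes the same value on triples of the same type -/
theorem inv_type {F : X → X → X → ℂ} (hF : D.Inv F) {x y z x' y' z' : X}
    (h1 : D.cl (x - z) = D.cl (x' - z')) (h2 : D.cl (x - y) = D.cl (x' - y'))
    (h3 : D.cl (y - z) = D.cl (y' - z')) : F x y z = F x' y' z' := by
  rw [D.inv_zero hF x y z, D.inv_zero hF x' y' z']
  -- the pair `(x - y, y - z)` has sum `x - z`
  have e1 : x - y + (y - z) = x - z := by abel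
  have e2 : x' - y' + (y' - z') = x' - z' := by abel
  rcases D.pair_det h2 h3 (by rw [e1, e2]; exact h1) with ⟨ha, hb⟩ | ⟨ha, hb⟩
  · have hc : x' - z' = x - z := by rw [← e1, ← e2, ha, hb]
    rw [hb, hc]
  · have hc : x' - z' = D.τ (x - z) := by rw [← e1, ← e2, ha, hb, D.τ_add]
    rw [hb, hc]
    have := hF.2 (x - z) (y - z) 0
    rw [D.τ_zero] at this
    exact this.symm

theorem A_mem (i : Fin (d + 1)) : D.scheme.A i ∈ D.scheme.BM := Submodule.subset_span ⟨i, rfl⟩

open Classical in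
theorem inv_mem_delta {F : X → X → X → ℂ} (hF : D.Inv F) : F ∈ D.scheme.DeltaSpace := by
  set H : Fin (d + 1) → Fin (d + 1) → Fin (d + 1) → ℂ := fun i j k =>
    if h : ∃ w : X × X × X, D.cl (w.1 - w.2.2) = i ∧ D.cl (w.1 - w.2.1) = j ∧
      D.cl (w.2.1 - w.2.2) = k then F h.choose.1 h.choose.2.1 h.choose.2.2 else 0 with hH
  have hHF : ∀ x y z, H (D.cl (x - z)) (D.cl (x - y)) (D.cl (y - z)) = F x y z := by
    intro x y z
    have h : ∃ w : X × X × X, D.cl (w.1 - w.2.2) = D.cl (x - z) ∧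
        D.cl (w.1 - w.2.1) = D.cl (x - y) ∧ D.cl (w.2.1 - w.2.2) = D.cl (y - z) :=
      ⟨(x, y, z), rfl, rfl, rfl⟩
    rw [hH]
    simp only
    rw [dif_pos h]
    exact D.inv_type hF h.choose_spec.1 h.choose_spec.2.1 h.choose_spec.2.2
  have key : F = ∑ i, ∑ j, ∑ k, H i j k • Delta (D.scheme.A i) (D.scheme.A j) (D.scheme.A k) := by
    ext x y z
    simp only [Finset.sum_apply, Pi.smul_apply, smul_eq_mul]
    have h1 : ∀ i j k, H i j k * Delta (D.scheme.A i) (D.scheme.A j) (D.scheme.A k) x y z =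
        if D.cl (y - z) = k then (if D.cl (x - y) = j then (if D.cl (x - z) = i then H i j k
          else 0) else 0) else 0 := by
      intro i j k
      unfold Delta
      rw [D.A_apply, D.A_apply, D.A_apply]
      split_ifs <;> simp
    simp only [h1, sum_ite_eq, mem_univ, if_true]
    exact (hHF x y z).symm
  rw [key]
  refine Submodule.sum_mem _ fun i _ => Submodule.sum_mem _ fun j _ => Submodule.sum_mem _
    fun k _ => Submodule.smul_mem _ _ (Submodule.subset_span ?_)
  exact ⟨_, D.A_mem i, _, D.A_mem j, _, D.A_mem k, rfl⟩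

theorem inv_mem_wye {F : X → X → X → ℂ} (hF : D.Inv F) : F ∈ D.scheme.WyeSpace := by
  rw [D.expand hF]
  refine Submodule.sum_mem _ fun v _ => Submodule.smul_mem _ _ (Submodule.subset_span ?_)
  exact ⟨_, D.E_mem _, _, D.E_mem _, _, D.E_mem _, rfl⟩

theorem exactlyTriplyRegular : D.scheme.ExactlyTriplyRegular := by
  refine ⟨Submodule.span_le.2 ?_, Submodule.span_le.2 ?_⟩
  · rintro T ⟨L, hL, M, hM, N, hN, rfl⟩
    exact D.inv_mem_delta (D.wye_inv hL hM hN)
  · rintro T ⟨L, hL, M, hM, N, hN, rfl⟩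
    exact D.inv_mem_wye (D.delta_inv hL hM hN)

/-- the Delta-Wye parameters -/
noncomputable def sigma (i j k r s t : Fin (d + 1)) : ℂ :=
  D.G (Delta (D.scheme.A i) (D.scheme.A j) (D.scheme.A k)) r s t

theorem isDeltaWye : D.scheme.IsDeltaWye D.E (fun r s t => (D.scheme.p r s t : ℝ)) D.sigma := by
  intro i j k _
  exact D.expand (D.delta_inv (D.A_mem i) (D.A_mem j) (D.A_mem k))

/-- the real part of a Delta-Wye parameter as an integer -/
def sigmaZ (i j k : Fin (d + 1)) (a b : X) : ℤ :=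
  ∑ x, ∑ y, if D.cl x = i ∧ D.cl (x - y) = j ∧ D.cl y = k then rho (-(D.b a x + D.b b y)) else 0

/-- Any system of Delta-Wye parameters is given by `sigmaZ` (real parts). -/
theorem deltaWye_re {σ : Fin (d + 1) → Fin (d + 1) → Fin (d + 1) → Fin (d + 1) → Fin (d + 1) →
    Fin (d + 1) → ℂ}
    (hσ : D.scheme.IsDeltaWye D.E (fun r s t => (D.scheme.p r s t : ℝ)) σ) {i j k : Fin (d + 1)}
    (hp : 0 < D.scheme.p i j k) (a b : X) :
    (σ i j k (D.cl a) (D.cl b) (D.cl (a + b))).re = D.sigmaZ i j k a b := by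
  have h1 := D.unique (σ i j k) (hσ i j k hp) a b
  rw [h1]
  unfold hat sigmaZ
  rw [Complex.re_sum]
  push_cast
  refine sum_congr rfl fun x _ => ?_
  rw [Complex.re_sum]
  refine sum_congr rfl fun y _ => ?_
  unfold Delta
  rw [D.A_apply, D.A_apply, D.A_apply, sub_zero, sub_zero]
  have h2 : D.e a (-x) * D.e b (-y) = psi (-(D.b a x + D.b b y)) := by
    unfold e
    rw [D.b_neg, D.b_neg, ← AddChar.map_add_eq_mul, neg_add]
  rw [h2]
  by_cases ha : D.cl x = i
  · by_cases hb : D.cl (x - y) = j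
    · by_cases hc : D.cl y = k
      · simp only [ha, hb, hc, if_true, and_self, mul_one, Complex.ofReal_one, one_mul]
        exact psi_re _
      · simp [hc]
    · simp [hb]
  · simp [ha]

theorem sigma_unique {σ : Fin (d + 1) → Fin (d + 1) → Fin (d + 1) → Fin (d + 1) → Fin (d + 1) →
    Fin (d + 1) → ℂ}
    (hσ : D.scheme.IsDeltaWye D.E (fun r s t => (D.scheme.p r s t : ℝ)) σ) {i j k r s t : Fin (d + 1)}
    (hp : 0 < D.scheme.p i j k) (hq : 0 < D.scheme.p r s t) :
    σ i j k r s t = D.sigma i j k r s t := by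
  have h2 := D.scheme.card_eq r s (D.rep t) 0
  rw [D.rel_def, sub_zero, D.cl_rep] at h2
  rw [← h2, card_pos] at hq
  obtain ⟨z, hz⟩ := hq
  rw [mem_filter, D.rel_def, D.rel_def, sub_zero] at hz
  have h3 := D.unique (σ i j k) (hσ i j k hp) (D.rep t - z) z
  have h4 := D.unique (D.sigma i j k) (D.isDeltaWye i j k hp) (D.rep t - z) z
  rw [sub_add_cancel, D.cl_rep, hz.2.1, hz.2.2] at h3 h4
  rw [h3, h4]

end Dat

end Pool.Agent.T2H15.DW
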