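import Pool.Agent.T2H15.DW.Idem

/-!
# Exact triple regularity and the Delta-Wye parameters of the schemes `D.scheme`
-/

namespace Pool.Agent.T2H15.DW

open Finset Matrix

variable {X : Type} [AddCommGroup X] [Fintype X] [DecidableEq X] {d : ℕ}

namespace Dat

variable (D : Dat X d)

/-- the pairs of type `(r, s, t)` -/
def typ (r s t : Fin (d + 1)) : Finset (X × X) :=
  univ.filter fun w => D.cl w.1 = r ∧ D.cl w.2 = s ∧ D.cl (w.1 + w.2) = t

theorem mem_typ {r s t : Fin (d + 1)} {w : X × X} :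
    w ∈ D.typ r s t ↔ D.cl w.1 = r ∧ D.cl w.2 = s ∧ D.cl (w.1 + w.2) = t := by
  simp [typ]

omit [AddCommGroup X] [DecidableEq X] in
theorem tri (P Q R : Finset X) (f g h : X → X → ℂ) :
    ∑ u, (∑ a ∈ P, f a u) * (∑ b ∈ Q, g b u) * (∑ c ∈ R, h c u) =
      ∑ a ∈ P, ∑ b ∈ Q, ∑ c ∈ R, ∑ u, f a u * g b u * h c u := by
  calc ∑ u, (∑ a ∈ P, f a u) * (∑ b ∈ Q, g b u) * (∑ c ∈ R, h c u)
      = ∑ u, ∑ a ∈ P, ∑ b ∈ Q, ∑ c ∈ R, f a u * g b u * h c u := by
        refine sum_congr rfl fun u _ => ?_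
        rw [sum_mul_sum, sum_mul]
        refine sum_congr rfl fun a _ => ?_
        rw [sum_mul]
        refine sum_congr rfl fun b _ => ?_
        rw [mul_sum]
    _ = ∑ a ∈ P, ∑ u, ∑ b ∈ Q, ∑ c ∈ R, f a u * g b u * h c u := sum_comm
    _ = ∑ a ∈ P, ∑ b ∈ Q, ∑ u, ∑ c ∈ R, f a u * g b u * h c u :=
        sum_congr rfl fun a _ => sum_comm
    _ = ∑ a ∈ P, ∑ b ∈ Q, ∑ c ∈ R, ∑ u, f a u * g b u * h c u :=
        sum_congr rfl fun a _ => sum_congr rfl fun b _ => sum_comm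

omit [AddCommGroup X] [DecidableEq X] in
theorem sum_sum_mul (c : ℂ) (f g : X → ℂ) :
    ∑ a, ∑ b, c * (f a * g b) = c * ((∑ a, f a) * ∑ b, g b) := by
  rw [sum_mul_sum, mul_sum]
  refine sum_congr rfl fun a _ => ?_
  rw [mul_sum]

theorem triple_e (a b c x y z : X) : ∑ u, D.e a (x - u) * D.e b (y - u) * D.e c (z - u) =
    if c = -(a + b) then (Fintype.card X : ℂ) * (D.e a (x - z) * D.e b (y - z)) else 0 := by
  have h1 : ∀ u, D.e a (x - u) * D.e b (y - u) * D.e c (z - u) =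
      D.e a x * D.e b y * D.e c z * D.e (-(a + b + c)) u := by
    intro u
    rw [D.e_sub, D.e_sub, D.e_sub, D.e_neg', D.e_add', D.e_add']
    ring
  simp only [h1]
  rw [← mul_sum, D.sum_e]
  by_cases h : c = -(a + b)
  · subst h
    rw [if_pos (by simp), if_pos rfl, D.e_sub, D.e_sub, D.e_neg', D.e_add']
    ring
  · rw [if_neg h, if_neg, mul_zero]
    intro h'
    apply h
    rw [neg_eq_zero] at h'
    exact eq_neg_of_add_eq_zero_right h'

theorem wye_E (r s t : Fin (d + 1)) (x y z : X) : Wye (D.E r) (D.E s) (D.E t) x y z =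
    (∑ w ∈ D.typ r s t, D.e w.1 (x - z) * D.e w.2 (y - z)) / (Fintype.card X : ℂ) ^ 2 := by
  have hc := card_ne (X := X)
  unfold Wye
  rw [Complex.ofReal_sum]
  simp only [Complex.ofReal_mul, D.E_cast]
  have h1 : ∀ u, D.S r (x - u) / (Fintype.card X : ℂ) * (D.S s (y - u) / (Fintype.card X : ℂ)) *
      (D.S t (z - u) / (Fintype.card X : ℂ)) =
      (D.S r (x - u) * D.S s (y - u) * D.S t (z - u)) / (Fintype.card X : ℂ) ^ 3 := by
    intro u
    field_simp
  simp only [h1]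
  rw [← sum_div]
  have h2 : ∑ u, D.S r (x - u) * D.S s (y - u) * D.S t (z - u) =
      (Fintype.card X : ℂ) * ∑ w ∈ D.typ r s t, D.e w.1 (x - z) * D.e w.2 (y - z) := by
    unfold S typ
    rw [tri, sum_filter (fun w : X × X => D.cl w.1 = r ∧ D.cl w.2 = s ∧ D.cl (w.1 + w.2) = t),
      Fintype.sum_prod_type, mul_sum, sum_filter (fun a => D.cl a = r)]
    refine sum_congr rfl fun a _ => ?_
    by_cases ha : D.cl a = r
    · rw [if_pos ha, sum_filter (fun b => D.cl b = s), mul_sum]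
      refine sum_congr rfl fun b _ => ?_
      by_cases hb : D.cl b = s
      · rw [if_pos hb]
        simp only [ha, hb, true_and]
        simp only [D.triple_e]
        rw [sum_ite_eq']
        simp only [mem_filter, mem_univ, true_and, D.cl_neg]
        split_ifs <;> simp
      · rw [if_neg hb, if_neg (fun h => hb h.2.1), mul_zero]
    · rw [if_neg ha]
      symm
      rw [mul_eq_zero]
      right
      refine sum_eq_zero fun b _ => ?_
      rw [if_neg (fun h => ha h.1)]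
  rw [h2]
  field_simp

/-- the Fourier transform of a function of two variables -/
noncomputable def hat (f : X → X → ℂ) (a b : X) : ℂ := ∑ x, ∑ y, f x y * (D.e a (-x) * D.e b (-y))

theorem sum_char (x x' : X) : ∑ a, D.e a (-x') * D.e a x =
    if x' = x then (Fintype.card X : ℂ) else 0 := by
  have : ∀ a, D.e a (-x') * D.e a x = D.e a (x - x') := fun a => by rw [D.e_sub, mul_comm]
  simp only [this]
  rw [D.sum_e']
  by_cases h : x' = x
  · rw [if_pos h, if_pos (sub_eq_zero.2 h.symm)]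
  · rw [if_neg h, if_neg (fun h' => h (sub_eq_zero.1 h').symm)]

theorem inversion (f : X → X → ℂ) (x y : X) :
    ∑ w : X × X, D.hat f w.1 w.2 * (D.e w.1 x * D.e w.2 y) = (Fintype.card X : ℂ) ^ 2 * f x y := by
  rw [Fintype.sum_prod_type]
  unfold hat
  have h1 : ∀ a b, (∑ x', ∑ y', f x' y' * (D.e a (-x') * D.e b (-y'))) * (D.e a x * D.e b y) =
      ∑ x', ∑ y', f x' y' * ((D.e a (-x') * D.e a x) * (D.e b (-y') * D.e b y)) := by
    intro a b
    rw [sum_mul]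
    refine sum_congr rfl fun x' _ => ?_
    rw [sum_mul]
    refine sum_congr rfl fun y' _ => ?_
    ring
  simp only [h1]
  have h2 : ∑ a, ∑ b, ∑ x', ∑ y', f x' y' * ((D.e a (-x') * D.e a x) * (D.e b (-y') * D.e b y)) =
      ∑ x', ∑ y', f x' y' * ((∑ a, D.e a (-x') * D.e a x) * (∑ b, D.e b (-y') * D.e b y)) := by
    calc ∑ a, ∑ b, ∑ x', ∑ y', f x' y' * ((D.e a (-x') * D.e a x) * (D.e b (-y') * D.e b y))
        = ∑ a, ∑ x', ∑ b, ∑ y', f x' y' * ((D.e a (-x') * D.e a x) * (D.e b (-y') * D.e b y)) :=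
          sum_congr rfl fun a _ => sum_comm
      _ = ∑ x', ∑ a, ∑ b, ∑ y', f x' y' * ((D.e a (-x') * D.e a x) * (D.e b (-y') * D.e b y)) :=
          sum_comm
      _ = ∑ x', ∑ a, ∑ y', ∑ b, f x' y' * ((D.e a (-x') * D.e a x) * (D.e b (-y') * D.e b y)) :=
          sum_congr rfl fun x' _ => sum_congr rfl fun a _ => sum_comm
      _ = ∑ x', ∑ y', ∑ a, ∑ b, f x' y' * ((D.e a (-x') * D.e a x) * (D.e b (-y') * D.e b y)) :=
          sum_congr rfl fun x' _ => sum_comm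
      _ = _ := sum_congr rfl fun x' _ => sum_congr rfl fun y' _ => sum_sum_mul _ _ _
  rw [h2]
  simp only [D.sum_char, mul_ite, mul_zero, sum_ite_eq', mem_univ, if_true, ite_mul, zero_mul]
  ring

/-- invariance under translations and `τ` -/
def Inv (F : X → X → X → ℂ) : Prop :=
  (∀ w x y z, F (x + w) (y + w) (z + w) = F x y z) ∧ ∀ x y z, F (D.τ x) (D.τ y) (D.τ z) = F x y z

theorem inv_zero {F : X → X → X → ℂ} (hF : D.Inv F) (x y z : X) :
    F x y z = F (x - z) (y - z) 0 := by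
  have := hF.1 (-z) x y z
  rw [← this, add_neg_cancel, sub_eq_add_neg, sub_eq_add_neg]

theorem hat_τ {F : X → X → X → ℂ} (hF : D.Inv F) (a b : X) :
    D.hat (fun x y => F x y 0) (D.τ a) (D.τ b) = D.hat (fun x y => F x y 0) a b := by
  unfold hat
  have hbij : Function.Bijective D.τ := Function.Involutive.bijective D.ττ
  refine Fintype.sum_equiv (Equiv.ofBijective _ hbij) _ _ (fun x => ?_)
  refine Fintype.sum_equiv (Equiv.ofBijective _ hbij) _ _ (fun y => ?_)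
  simp only [Equiv.ofBijective_apply]
  have h := hF.2 x y 0
  rw [D.τ_zero] at h
  rw [h, D.e_τ, D.e_τ, D.τ_neg, D.τ_neg]

open Classical in
/-- value of the Fourier transform on the pairs of a type -/
noncomputable def G (F : X → X → X → ℂ) (r s t : Fin (d + 1)) : ℂ :=
  if h : ∃ w, w ∈ D.typ r s t then D.hat (fun x y => F x y 0) h.choose.1 h.choose.2 else 0

theorem G_eq {F : X → X → X → ℂ} (hF : D.Inv F) {r s t : Fin (d + 1)} {w : X × X}
    (hw : w ∈ D.typ r s t) : D.G F r s t = D.hat (fun x y => F x y 0) w.1 w.2 := by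
  have h : ∃ w, w ∈ D.typ r s t := ⟨w, hw⟩
  unfold G
  rw [dif_pos h]
  have h1 := D.mem_typ.1 h.choose_spec
  have h2 := D.mem_typ.1 hw
  rcases D.pair_det (h2.1.trans h1.1.symm) (h2.2.1.trans h1.2.1.symm)
    (h2.2.2.trans h1.2.2.symm) with h3 | h3
  · rw [h3.1, h3.2]
  · rw [h3.1, h3.2, D.hat_τ hF]

theorem typ_pos {r s t : Fin (d + 1)} {w : X × X} (hw : w ∈ D.typ r s t) :
    0 < D.scheme.p r s t := by
  have h := D.mem_typ.1 hw
  have h1 := D.scheme.card_eq r s (w.1 + w.2) 0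
  rw [D.rel_def, sub_zero, h.2.2] at h1
  rw [← h1, card_pos]
  refine ⟨w.2, ?_⟩
  rw [mem_filter, D.rel_def, D.rel_def, add_sub_cancel_right, sub_zero]
  exact ⟨mem_univ _, h.1, h.2.1⟩

/-- the index set of the Delta-Wye expansion -/
noncomputable def idx : Finset (Fin (d + 1) × Fin (d + 1) × Fin (d + 1)) :=
  univ.filter fun w => (0 : ℝ) < (D.scheme.p w.1 w.2.1 w.2.2 : ℝ)

theorem sum_types (f : X × X → ℂ) :
    ∑ v ∈ D.idx, ∑ w ∈ D.typ v.1 v.2.1 v.2.2, f w = ∑ w, f w := by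
  classical
  have h1 : ∀ v : Fin (d + 1) × Fin (d + 1) × Fin (d + 1), D.typ v.1 v.2.1 v.2.2 =
      univ.filter (fun w : X × X => (D.cl w.1, D.cl w.2, D.cl (w.1 + w.2)) = v) := by
    intro v
    ext w
    rw [D.mem_typ, mem_filter]
    simp only [mem_univ, true_and, Prod.ext_iff]
  have h2 : ∑ v ∈ D.idx, ∑ w ∈ D.typ v.1 v.2.1 v.2.2, f w =
      ∑ v : Fin (d + 1) × Fin (d + 1) × Fin (d + 1), ∑ w ∈ D.typ v.1 v.2.1 v.2.2, f w := by
    refine sum_subset (subset_univ _) fun v _ hv => ?_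
    refine sum_eq_zero fun w hw => ?_
    exfalso
    apply hv
    rw [idx, mem_filter]
    exact ⟨mem_univ _, by exact_mod_cast D.typ_pos hw⟩
  rw [h2]
  simp only [h1]
  exact sum_fiberwise univ (fun w : X × X => (D.cl w.1, D.cl w.2, D.cl (w.1 + w.2))) f

/-- **Expansion of an invariant function in the tensors `Y(E_r, E_s, E_t)`.** -/
theorem expand {F : X → X → X → ℂ} (hF : D.Inv F) :
    F = ∑ v ∈ D.idx, D.G F v.1 v.2.1 v.2.2 • Wye (D.E v.1) (D.E v.2.1) (D.E v.2.2) := by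
  have hc := card_ne (X := X)
  ext x y z
  rw [D.inv_zero hF x y z]
  simp only [Finset.sum_apply, Pi.smul_apply, smul_eq_mul, D.wye_E]
  have h1 : ∀ v : Fin (d + 1) × Fin (d + 1) × Fin (d + 1), D.G F v.1 v.2.1 v.2.2 *
      ((∑ w ∈ D.typ v.1 v.2.1 v.2.2, D.e w.1 (x - z) * D.e w.2 (y - z)) /
        (Fintype.card X : ℂ) ^ 2) =
      (∑ w ∈ D.typ v.1 v.2.1 v.2.2, D.hat (fun x y => F x y 0) w.1 w.2 *
        (D.e w.1 (x - z) * D.e w.2 (y - z))) / (Fintype.card X : ℂ) ^ 2 := by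
    intro v
    rw [mul_div_assoc', mul_sum]
    congr 1
    refine sum_congr rfl fun w hw => ?_
    rw [D.G_eq hF hw]
  simp only [h1]
  rw [← sum_div, D.sum_types (fun w => D.hat (fun x y => F x y 0) w.1 w.2 *
        (D.e w.1 (x - z) * D.e w.2 (y - z))), D.inversion (fun x y => F x y 0)]
  field_simp

/-- **Uniqueness of the coefficients.** -/
theorem unique {F : X → X → X → ℂ} (σ : Fin (d + 1) → Fin (d + 1) → Fin (d + 1) → ℂ)
    (h : F = ∑ v ∈ D.idx, σ v.1 v.2.1 v.2.2 • Wye (D.E v.1) (D.E v.2.1) (D.E v.2.2)) (a b : X) :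
    σ (D.cl a) (D.cl b) (D.cl (a + b)) = D.hat (fun x y => F x y 0) a b := by
  have hc := card_ne (X := X)
  have h1 : ∀ x y, F x y 0 = ∑ v ∈ D.idx, ∑ w ∈ D.typ v.1 v.2.1 v.2.2,
      σ (D.cl w.1) (D.cl w.2) (D.cl (w.1 + w.2)) * (D.e w.1 x * D.e w.2 y) /
        (Fintype.card X : ℂ) ^ 2 := by
    intro x y
    rw [h]
    simp only [Finset.sum_apply, Pi.smul_apply, smul_eq_mul, D.wye_E, sub_zero]
    refine sum_congr rfl fun v _ => ?_
    rw [mul_div_assoc', mul_sum, sum_div]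
    refine sum_congr rfl fun w hw => ?_
    have := D.mem_typ.1 hw
    rw [this.1, this.2.1, this.2.2]
  unfold hat
  simp only [h1, D.sum_types (fun w => σ (D.cl w.1) (D.cl w.2) (D.cl (w.1 + w.2)) *
    (D.e w.1 _ * D.e w.2 _) / (Fintype.card X : ℂ) ^ 2)]
  have h2 : ∀ x y, (∑ w : X × X, σ (D.cl w.1) (D.cl w.2) (D.cl (w.1 + w.2)) *
      (D.e w.1 x * D.e w.2 y) / (Fintype.card X : ℂ) ^ 2) * (D.e a (-x) * D.e b (-y)) =
      ∑ w : X × X, σ (D.cl w.1) (D.cl w.2) (D.cl (w.1 + w.2)) / (Fintype.card X : ℂ) ^ 2 *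
        (D.e (w.1 - a) x * D.e (w.2 - b) y) := by
    intro x y
    rw [sum_mul]
    refine sum_congr rfl fun w _ => ?_
    rw [sub_eq_add_neg, sub_eq_add_neg, D.e_add', D.e_add', D.e_neg', D.e_neg']
    ring
  simp only [h2]
  have h3 : ∑ x, ∑ y, ∑ w : X × X, σ (D.cl w.1) (D.cl w.2) (D.cl (w.1 + w.2)) /
      (Fintype.card X : ℂ) ^ 2 * (D.e (w.1 - a) x * D.e (w.2 - b) y) =
      ∑ w : X × X, σ (D.cl w.1) (D.cl w.2) (D.cl (w.1 + w.2)) /
      (Fintype.card X : ℂ) ^ 2 * ((∑ x, D.e (w.1 - a) x) * (∑ y, D.e (w.2 - b) y)) := by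
    calc ∑ x, ∑ y, ∑ w : X × X, σ (D.cl w.1) (D.cl w.2) (D.cl (w.1 + w.2)) /
          (Fintype.card X : ℂ) ^ 2 * (D.e (w.1 - a) x * D.e (w.2 - b) y)
        = ∑ x, ∑ w : X × X, ∑ y, σ (D.cl w.1) (D.cl w.2) (D.cl (w.1 + w.2)) /
          (Fintype.card X : ℂ) ^ 2 * (D.e (w.1 - a) x * D.e (w.2 - b) y) :=
          sum_congr rfl fun x _ => sum_comm
      _ = ∑ w : X × X, ∑ x, ∑ y, σ (D.cl w.1) (D.cl w.2) (D.cl (w.1 + w.2)) /
          (Fintype.card X : ℂ) ^ 2 * (D.e (w.1 - a) x * D.e (w.2 - b) y) := sum_comm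
      _ = _ := sum_congr rfl fun w _ => sum_sum_mul _ _ _
  rw [h3]
  simp only [D.sum_e, sub_eq_zero]
  rw [Fintype.sum_prod_type]
  simp only [ite_mul, mul_ite, zero_mul, mul_zero, sum_ite_eq', mem_univ, if_true]
  field_simp

end Dat

end Pool.Agent.T2H15.DW
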